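import Pool.Agent.HS3.Null

/-!
# Thin slices of sets with pointwise regularity along scales
-/

set_option autoImplicit false
set_option linter.unusedSectionVars false
set_option linter.unusedVariables false

open Set MeasureTheory Metric Filter Topology
open scoped NNReal ENNReal

namespace Pool.Agent.Helper25.IO

open Pool.Agent.HS3

variable {d : ℕ}

/-- A slice of a box is covered by few small cells. -/
theorem exists_cells {c : Fin (d + 1) → ℝ} {σ : ℝ} (hσ : 0 < σ) (i : Fin (d + 1)) (t : ℝ)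
    {ρ : ℝ} (hρ : 0 < ρ) : ∃ E : ℕ → Set (Fin (d + 1) → ℝ),
      {x ∈ closedBall c σ | x i = t} ⊆ ⋃ n, E n ∧
      (∀ n, E n ⊆ {x ∈ closedBall c σ | x i = t}) ∧
      (∀ n, ∀ x ∈ E n, ∀ z ∈ E n, dist z x ≤ ρ) ∧
      (∀ n, (⌊2 * σ / ρ⌋₊ + 1) ^ d ≤ n → E n = ∅) := by
  classical
  have hcard : Fintype.card (Fin d → Fin (⌊2 * σ / ρ⌋₊ + 1)) = (⌊2 * σ / ρ⌋₊ + 1) ^ d := by
    rw [Fintype.card_fun, Fintype.card_fin, Fintype.card_fin]
  set e := Fintype.equivFin (Fin d → Fin (⌊2 * σ / ρ⌋₊ + 1)) with he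
  refine ⟨fun n => {x | (x ∈ closedBall c σ ∧ x i = t) ∧ (e (cellOf c σ ρ i x) : ℕ) = n}, ?_, ?_, ?_, ?_⟩
  · intro x hx
    exact mem_iUnion.mpr ⟨(e (cellOf c σ ρ i x) : ℕ), hx, rfl⟩
  · intro n x hx
    exact hx.1
  · intro n x hx z hz
    apply dist_le_of_cellOf (i := i) hσ hρ hz.1.1 hx.1.1 (hz.1.2.trans hx.1.2.symm)
    apply e.injective
    apply Fin.ext
    exact hz.2.trans hx.2.symm
  · intro n hn
    rw [eq_empty_iff_forall_notMem]
    rintro x ⟨-, hx⟩
    have h1 := (e (cellOf c σ ρ i x)).2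
    rw [hx, hcard] at h1
    omega

/-- A slice of a box is covered by sets of diameter less than `r j`, for some large `j`, with a
small sum of the powers of the diameters of the images under a map of order `b > d / (d + 2)`. -/
theorem exists_thin_cells {c : Fin (d + 1) → ℝ} {σ : ℝ} (hσ : 0 < σ) (i : Fin (d + 1)) (t : ℝ)
    {r : ℕ → ℝ} (hr : ∀ j, 0 < r j) (hr0 : Tendsto r atTop (𝓝 0)) {b L : ℝ}
    (hb : (d : ℝ) / (d + 2) < b) (hL : 0 ≤ L) (J : ℕ) {ε : ℝ≥0∞} (hε : 0 < ε) :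
    ∃ j, J ≤ j ∧ ∃ (E : ℕ → Set (Fin (d + 1) → ℝ)) (s : ℕ → ℝ≥0∞),
      {x ∈ closedBall c σ | x i = t} ⊆ ⋃ n, E n ∧
      (∀ n, E n ⊆ {x ∈ closedBall c σ | x i = t}) ∧
      (∀ n, ∀ x ∈ E n, ∀ z ∈ E n, dist z x < r j) ∧
      (∀ n, (E n).Nonempty → ENNReal.ofReal (L * r j ^ b) ≤ s n) ∧
      ∑' n, s n ^ (d + 2) ≤ ε := by
  classical
  have hr2 : ∀ j, 0 < r j / 2 := fun j => half_pos (hr j)
  have hr20 : Tendsto (fun j => r j / 2) atTop (𝓝 0) := by
    have := hr0.div_const 2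
    rwa [zero_div] at this
  have h1 : Tendsto (fun j => ENNReal.ofReal ((2 * σ / (r j / 2) + 1) ^ d *
      (2 * ((L * 2 ^ b) * (r j / 2) ^ b)) ^ (d + 2))) atTop (𝓝 0) := by
    have := (ENNReal.continuous_ofReal.tendsto 0).comp
      (tendsto_scale (d := d) (σ := σ) (L := L * 2 ^ b) hr2 hr20 hb)
    rwa [ENNReal.ofReal_zero] at this
  obtain ⟨j, hjJ, hj⟩ := ((eventually_ge_atTop J).and (h1.eventually_lt_const hε)).exists
  have h2 : (L * 2 ^ b) * (r j / 2) ^ b = L * r j ^ b := by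
    rw [Real.div_rpow (hr j).le zero_le_two]
    have h3 : (2 : ℝ) ^ b ≠ 0 := (Real.rpow_pos_of_pos two_pos b).ne'
    field_simp
  rw [h2] at hj
  obtain ⟨E, hE1, hE2, hE3, hE4⟩ := exists_cells (c := c) hσ i t (hr2 j)
  set M := (⌊2 * σ / (r j / 2)⌋₊ + 1) ^ d with hM
  refine ⟨j, hjJ, E, fun n => if n < M then ENNReal.ofReal (L * r j ^ b) else 0, hE1, hE2,
    fun n x hx z hz => (hE3 n x hx z hz).trans_lt (half_lt_self (hr j)), ?_, ?_⟩
  · rintro n ⟨x, hx⟩
    have hn : n < M := by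
      by_contra hn
      rw [hE4 n (not_lt.mp hn)] at hx
      exact hx
    simp only [if_pos hn, le_refl]
  · have h3 : ∑' n, (if n < M then ENNReal.ofReal (L * r j ^ b) else 0) ^ (d + 2) =
        ∑ n ∈ Finset.range M, ENNReal.ofReal (L * r j ^ b) ^ (d + 2) := by
      rw [tsum_eq_sum (s := Finset.range M)]
      · apply Finset.sum_congr rfl
        intro n hn
        rw [if_pos (Finset.mem_range.mp hn)]
      · intro n hn
        rw [Finset.mem_range] at hn
        rw [if_neg hn, zero_pow (by omega)]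
    rw [h3, Finset.sum_const, Finset.card_range, nsmul_eq_mul]
    refine le_trans ?_ hj.le
    have hR : 0 ≤ L * r j ^ b := mul_nonneg hL (Real.rpow_nonneg (hr j).le b)
    have h4 : ((⌊2 * σ / (r j / 2)⌋₊ + 1 : ℕ) : ℝ) ≤ 2 * σ / (r j / 2) + 1 := by
      push_cast
      have := Nat.floor_le (show 0 ≤ 2 * σ / (r j / 2) by have := hr2 j; positivity)
      linarith
    have h5 : (M : ℝ≥0∞) ≤ ENNReal.ofReal ((2 * σ / (r j / 2) + 1) ^ d) := by
      rw [← ENNReal.ofReal_natCast]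
      apply ENNReal.ofReal_le_ofReal
      rw [hM]
      push_cast
      push_cast at h4
      gcongr
    rw [ENNReal.ofReal_mul (by have := hr2 j; positivity : (0 : ℝ) ≤ (2 * σ / (r j / 2) + 1) ^ d),
      ← ENNReal.ofReal_pow hR]
    apply mul_le_mul' h5
    apply ENNReal.ofReal_le_ofReal
    apply pow_le_pow_left₀ hR
    linarith

/-- Two points of a closed piece at a distance less than a scale. The regularity is only assumed
with respect to the points of `N`, and the points of the piece are in the closure of `N`. -/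
theorem dist_le_of_piece {X Y : Type*} [PseudoMetricSpace X] [PseudoMetricSpace Y] {f : X → Y} {N : Set X}
    {x x' : X} (hx : x ∈ closure N) (hf : ContinuousAt f x) {r M : ℝ} (hxx : dist x x' < r)
    (h : ∀ z ∈ N, dist z x' < r → dist (f z) (f x') ≤ M) : dist (f x) (f x') ≤ M := by
  by_contra hcon
  rw [not_le] at hcon
  have h1 : ∀ᶠ z in 𝓝 x, M < dist (f z) (f x') :=
    (hf.dist continuousAt_const).eventually_const_lt hcon
  have h2 : ∀ᶠ z in 𝓝 x, dist z x' < r :=
    (continuousAt_id.dist continuousAt_const).eventually_lt_const hxx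
  obtain ⟨z, hzN, hz1, hz2⟩ := ((mem_closure_iff_frequently.mp hx).and_eventually (h1.and h2)).exists
  exact absurd (h z hzN hz2) (not_le.mpr hz1)

end Pool.Agent.Helper25.IO
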