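import Mathlib

/-!
# A connected set that misses a dense family of hyperplanes near one of its points
-/

set_option autoImplicit false

open Set Metric Filter Topology

namespace Pool.Agent.Helper25.IO

/-- **The box lemma.** Let `C` be connected and not a point. Near a point `u` of `C` it is impossible that in each
coordinate direction `C` misses the hyperplanes at a dense set of levels. -/
theorem box_false {ι : Type*} [Fintype ι] [DecidableEq ι] {C : Set (ι → ℝ)} (hC : IsPreconnected C) (hnt : C.Nontrivial)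
    {u : ι → ℝ} (hu : u ∈ C) {O : Set (ι → ℝ)} (hO : O ∈ 𝓝 u) {S : ι → Set ℝ} (hS : ∀ i, Dense (S i))
    (hdisj : ∀ i, ∀ s ∈ S i, ∀ v ∈ C ∩ O, v i ≠ s) : False := by
  obtain ⟨w, hw, hwu⟩ := hnt.exists_ne u
  obtain ⟨ε₀, hε₀, hball⟩ := Metric.mem_nhds_iff.mp hO
  set ε := min (ε₀ / 2) (dist w u / 2) with hεdef
  have hε : 0 < ε := lt_min (half_pos hε₀) (half_pos (dist_pos.mpr hwu))
  -- the levels
  have hlo : ∀ i, ∃ s ∈ S i, s ∈ Ioo (u i - ε) (u i) := fun i => by
    obtain ⟨s, hs1, hs2⟩ := (hS i).exists_mem_open isOpen_Ioo (nonempty_Ioo.mpr (sub_lt_self (u i) hε))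
    exact ⟨s, hs1, hs2⟩
  have hhi : ∀ i, ∃ s ∈ S i, s ∈ Ioo (u i) (u i + ε) := fun i => by
    obtain ⟨s, hs1, hs2⟩ := (hS i).exists_mem_open isOpen_Ioo (nonempty_Ioo.mpr (lt_add_of_pos_right (u i) hε))
    exact ⟨s, hs1, hs2⟩
  choose lo hlo1 hlo2 using hlo
  choose hi hhi1 hhi2 using hhi
  -- the box
  set P : Set (ι → ℝ) := {v | ∀ i, lo i < v i ∧ v i < hi i} with hP
  set P' : Set (ι → ℝ) := {v | ∀ i, lo i ≤ v i ∧ v i ≤ hi i} with hP'
  have hPo : IsOpen P := by
    have : P = Set.pi univ fun i => Ioo (lo i) (hi i) := by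
      ext v
      simp only [hP, Set.mem_pi, mem_univ, forall_true_left, mem_Ioo, mem_ofPred_eq]
    rw [this]
    exact isOpen_set_pi finite_univ fun i _ => isOpen_Ioo
  have hPc : IsClosed P' := by
    have : P' = Set.pi univ fun i => Icc (lo i) (hi i) := by
      ext v
      simp only [hP', Set.mem_pi, mem_univ, forall_true_left, mem_Icc, mem_ofPred_eq]
    rw [this]
    exact isClosed_set_pi fun i _ => isClosed_Icc
  have hdist : ∀ v ∈ P', dist v u ≤ ε := by
    intro v hv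
    rw [dist_pi_le_iff hε.le]
    intro i
    rw [Real.dist_eq, abs_le]
    have h1 := hv i
    have h2 := (hlo2 i).1
    have h3 := (hhi2 i).2
    constructor <;> linarith [h1.1, h1.2]
  have hPO : P' ⊆ O := fun v hv => hball (by
    rw [mem_ball]
    have h1 := hdist v hv
    have h2 : ε ≤ ε₀ / 2 := min_le_left _ _
    linarith)
  have huP : u ∈ P := fun i => ⟨(hlo2 i).2, (hhi2 i).1⟩
  -- the boundary
  have hbd : ∀ v ∈ C, v ∈ P' → v ∈ P := by
    intro v hvC hv i
    have h1 := hv i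
    exact ⟨lt_of_le_of_ne h1.1 fun h => hdisj i (lo i) (hlo1 i) v ⟨hvC, hPO hv⟩ h.symm,
      lt_of_le_of_ne h1.2 fun h => hdisj i (hi i) (hhi1 i) v ⟨hvC, hPO hv⟩ h⟩
  -- the set `C` is contained in the box
  have hwP : w ∉ P' := fun h => by
    have h1 := hdist w h
    have h2 : ε ≤ dist w u / 2 := min_le_right _ _
    have h3 : 0 < dist w u := dist_pos.mpr hwu
    linarith
  obtain ⟨v, hv1, hv2, hv3⟩ := hC P (P'ᶜ) hPo hPc.isOpen_compl (fun v hv => by
    by_cases h : v ∈ P'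
    · exact Or.inl (hbd v hv h)
    · exact Or.inr h) ⟨u, hu, huP⟩ ⟨w, hw, hwP⟩
  exact hv3 fun i => ⟨(hv2 i).1.le, (hv2 i).2.le⟩

end Pool.Agent.Helper25.IO
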